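import Pool.Agent.Q124.DA.Num

set_option autoImplicit false

/-! # DA: the derivative of `T` (N2) -/

namespace Pool.Agent.Q124.DA

open Complex Pool.Agent.Q276.DA

/-- the correction -/
noncomputable def gg (ρ u : ℝ) : ℂ := (1 - (u : ℂ) * I) ^ 2 * E (4 * (Real.pi : ℂ) ^ 2 / zp ρ u)

lemma zp_ne {ρ : ℝ} (hρ : 0 < ρ) (u : ℝ) : zp ρ u ≠ 0 := by
  unfold zp
  exact mul_ne_zero (by exact_mod_cast hρ.ne') (w_ne u)

lemma re_x_pos {ρ : ℝ} (hρ : 0 < ρ) (u : ℝ) : 0 < (4 * (Real.pi : ℂ) ^ 2 / zp ρ u).re := by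
  rw [re_x hρ u]
  positivity

lemma x_der {ρ : ℝ} (hρ : 0 < ρ) (u : ℝ) :
    HasDerivAt (fun u : ℝ => 4 * (Real.pi : ℂ) ^ 2 / zp ρ u) (-(4 * (Real.pi : ℂ) ^ 2) * ((ρ : ℂ) * I) / zp ρ u ^ 2) u := by
  have h1 : HasDerivAt (fun u : ℝ => zp ρ u) ((ρ : ℂ) * I) u := by
    unfold zp
    have h2 : HasDerivAt (fun u : ℝ => (u : ℂ)) 1 u := Complex.ofRealCLM.hasDerivAt
    have h3 := ((h2.mul_const I).const_add 1).const_mul (ρ : ℂ)
    simpa using h3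
  have h4 := (hasDerivAt_const u (4 * (Real.pi : ℂ) ^ 2)).div h1 (zp_ne hρ u)
  have e : (0 * zp ρ u - 4 * (Real.pi : ℂ) ^ 2 * ((ρ : ℂ) * I)) / zp ρ u ^ 2 =
      -(4 * (Real.pi : ℂ) ^ 2) * ((ρ : ℂ) * I) / zp ρ u ^ 2 := by ring
  rw [e] at h4
  exact h4

lemma gg_der (hS : S_SER) {ρ : ℝ} (hρ : 0 < ρ) (u : ℝ) :
    HasDerivAt (gg ρ) (2 * (1 - (u : ℂ) * I) * (-I) * E (4 * (Real.pi : ℂ) ^ 2 / zp ρ u) +
      (1 - (u : ℂ) * I) ^ 2 * (deriv E (4 * (Real.pi : ℂ) ^ 2 / zp ρ u) * (-(4 * (Real.pi : ℂ) ^ 2) * ((ρ : ℂ) * I) / zp ρ u ^ 2))) u := by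
  have h2 : HasDerivAt (fun u : ℝ => (u : ℂ)) 1 u := Complex.ofRealCLM.hasDerivAt
  have h3 : HasDerivAt (fun u : ℝ => 1 - (u : ℂ) * I) (-I) u := by
    simpa using (h2.mul_const I).const_sub 1
  have h4 : HasDerivAt (fun u : ℝ => (1 - (u : ℂ) * I) ^ 2) (2 * (1 - (u : ℂ) * I) * (-I)) u := by
    have := h3.fun_pow 2
    simpa using this
  have hE : HasDerivAt E (deriv E (4 * (Real.pi : ℂ) ^ 2 / zp ρ u)) (4 * (Real.pi : ℂ) ^ 2 / zp ρ u) :=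
    ((hS.1 _ (re_x_pos hρ u)).2.2.2).hasDerivAt
  have h5 : HasDerivAt (fun u : ℝ => E (4 * (Real.pi : ℂ) ^ 2 / zp ρ u))
      (deriv E (4 * (Real.pi : ℂ) ^ 2 / zp ρ u) * (-(4 * (Real.pi : ℂ) ^ 2) * ((ρ : ℂ) * I) / zp ρ u ^ 2)) u :=
    HasDerivAt.comp (h₂ := E) u hE (x_der hρ u)
  exact h4.mul h5

lemma norm_zp {ρ : ℝ} (hρ : 0 < ρ) (u : ℝ) : ‖zp ρ u ^ 2‖ = ρ ^ 2 * (1 + u ^ 2) := by
  unfold zp
  rw [mul_pow, norm_mul, norm_pow, norm_pow, norm_w, Complex.norm_real, Real.norm_eq_abs, abs_of_pos hρ]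

lemma norm_w'_sqrt (u : ℝ) : ‖(1 - (u : ℂ) * I)‖ = Real.sqrt (1 + u ^ 2) := by
  rw [← norm_w' u, Real.sqrt_sq (norm_nonneg _)]

lemma gg_der_bound {ρ : ℝ} (hρ : 0 < ρ) (u : ℝ) {M : ℝ}
    (h1 : ‖E (4 * (Real.pi : ℂ) ^ 2 / zp ρ u)‖ ≤ M) (h2 : ‖deriv E (4 * (Real.pi : ℂ) ^ 2 / zp ρ u)‖ ≤ M) :
    ‖2 * (1 - (u : ℂ) * I) * (-I) * E (4 * (Real.pi : ℂ) ^ 2 / zp ρ u) +
      (1 - (u : ℂ) * I) ^ 2 * (deriv E (4 * (Real.pi : ℂ) ^ 2 / zp ρ u) * (-(4 * (Real.pi : ℂ) ^ 2) * ((ρ : ℂ) * I) / zp ρ u ^ 2))‖ ≤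
    M * (2 * Real.sqrt (1 + u ^ 2) + (1 + u ^ 2) * (4 * Real.pi ^ 2 / (ρ * (1 + u ^ 2)))) := by
  have hM : 0 ≤ M := (norm_nonneg _).trans h1
  have hx' : ‖-(4 * (Real.pi : ℂ) ^ 2) * ((ρ : ℂ) * I) / zp ρ u ^ 2‖ = 4 * Real.pi ^ 2 / (ρ * (1 + u ^ 2)) := by
    rw [norm_div, norm_zp hρ, norm_mul, norm_neg, norm_mul, norm_mul, norm_pow, Complex.norm_real, Complex.norm_real, norm_I,
      Real.norm_eq_abs, Real.norm_eq_abs, abs_of_pos hρ, abs_of_pos Real.pi_pos, Complex.norm_ofNat]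
    field_simp
  refine (norm_add_le _ _).trans ?_
  have a1 : ‖2 * (1 - (u : ℂ) * I) * (-I) * E (4 * (Real.pi : ℂ) ^ 2 / zp ρ u)‖ ≤ M * (2 * Real.sqrt (1 + u ^ 2)) := by
    rw [norm_mul, norm_mul, norm_mul, norm_neg, norm_I, norm_w'_sqrt, Complex.norm_ofNat, mul_one, mul_comm]
    exact mul_le_mul_of_nonneg_right h1 (by positivity)
  have a2 : ‖(1 - (u : ℂ) * I) ^ 2 * (deriv E (4 * (Real.pi : ℂ) ^ 2 / zp ρ u) * (-(4 * (Real.pi : ℂ) ^ 2) * ((ρ : ℂ) * I) / zp ρ u ^ 2))‖ ≤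
      M * ((1 + u ^ 2) * (4 * Real.pi ^ 2 / (ρ * (1 + u ^ 2)))) := by
    rw [norm_mul, norm_mul, hx', norm_pow, norm_w']
    have hX : 0 ≤ (1 + u ^ 2) * (4 * Real.pi ^ 2 / (ρ * (1 + u ^ 2))) := by positivity
    calc (1 + u ^ 2) * (‖deriv E (4 * (Real.pi : ℂ) ^ 2 / zp ρ u)‖ * (4 * Real.pi ^ 2 / (ρ * (1 + u ^ 2)))) =
        ‖deriv E (4 * (Real.pi : ℂ) ^ 2 / zp ρ u)‖ * ((1 + u ^ 2) * (4 * Real.pi ^ 2 / (ρ * (1 + u ^ 2)))) := by ring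
      _ ≤ _ := mul_le_mul_of_nonneg_right h2 hX
  calc _ ≤ M * (2 * Real.sqrt (1 + u ^ 2)) + M * ((1 + u ^ 2) * (4 * Real.pi ^ 2 / (ρ * (1 + u ^ 2)))) := add_le_add a1 a2
    _ = _ := by ring

lemma N_der (ρ u : ℝ) : HasDerivAt (N ρ) (2 * u * (-(4 * Real.pi ^ 2 + 12 * ρ) + 2 * ρ ^ 2 * (1 + u ^ 2))) u := by
  unfold N
  have h1 : HasDerivAt (fun u : ℝ => 1 + u ^ 2) (2 * u) u := by
    have := (hasDerivAt_pow 2 u).const_add 1
    simpa using this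
  have h2 : HasDerivAt (fun u : ℝ => (1 + u ^ 2) ^ 2) (2 * (1 + u ^ 2) * (2 * u)) u := by
    have := h1.fun_pow 2
    simpa using this
  have h3 := ((h1.const_mul (4 * Real.pi ^ 2 + 12 * ρ)).const_sub (8 * Real.pi ^ 2)).add (h2.const_mul (ρ ^ 2))
  refine HasDerivAt.congr_deriv h3 ?_
  ring

lemma exp_83 : Real.exp (-(83 / 10 : ℝ)) ≤ 1 / (3950 : ℝ) := by
  rw [Real.exp_neg, ← one_div]
  apply one_div_le_one_div_of_le (by norm_num)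
  have e1 : Real.exp (83 / 10 : ℝ) = Real.exp 1 ^ 8 * Real.exp (3 / 10 : ℝ) := by
    rw [← Real.exp_nat_mul, ← Real.exp_add]
    norm_num
  have e2 : (2.718 : ℝ) ^ 8 ≤ Real.exp 1 ^ 8 := by
    have := Real.exp_one_gt_d9
    exact pow_le_pow_left₀ (by norm_num) (by linarith) 8
  have e3 : (134 / 100 : ℝ) ≤ Real.exp (3 / 10 : ℝ) := by
    have := Real.quadratic_le_exp_of_nonneg (x := (3 / 10 : ℝ)) (by norm_num)
    linarith
  rw [e1]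
  have e4 : (2.718 : ℝ) ^ 8 * (134 / 100) ≤ Real.exp 1 ^ 8 * Real.exp (3 / 10 : ℝ) :=
    mul_le_mul e2 e3 (by norm_num) (by positivity)
  refine le_trans ?_ e4
  norm_num

lemma exp_647 : Real.exp (-(647 / 100 : ℝ)) ≤ 1 / (600 : ℝ) := by
  rw [Real.exp_neg, ← one_div]
  apply one_div_le_one_div_of_le (by norm_num)
  have e1 : Real.exp (647 / 100 : ℝ) = Real.exp 1 ^ 6 * Real.exp (47 / 100 : ℝ) := by
    rw [← Real.exp_nat_mul, ← Real.exp_add]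
    norm_num
  have e2 : (2.718 : ℝ) ^ 6 ≤ Real.exp 1 ^ 6 := by
    have := Real.exp_one_gt_d9
    exact pow_le_pow_left₀ (by norm_num) (by linarith) 6
  have e3 : (158 / 100 : ℝ) ≤ Real.exp (47 / 100 : ℝ) := by
    have := Real.quadratic_le_exp_of_nonneg (x := (47 / 100 : ℝ)) (by norm_num)
    linarith
  rw [e1]
  have e4 : (2.718 : ℝ) ^ 6 * (158 / 100) ≤ Real.exp 1 ^ 6 * Real.exp (47 / 100 : ℝ) :=
    mul_le_mul e2 e3 (by norm_num) (by positivity)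
  refine le_trans ?_ e4
  norm_num

theorem t_N2 (h : S_TN) (hS : S_SER) (hB : S_BND) : S_N2 := by
  intro ρ u hρ hρ1 hu hu1
  have hp1 := pisq_lo
  have hp2 := pisq_hi
  have hTf : T ρ = fun u => N ρ u - 96 * Real.pi ^ 2 * (gg ρ u).re := by
    funext v
    exact h ρ v hρ
  set D : ℂ := 2 * (1 - (u : ℂ) * I) * (-I) * E (4 * (Real.pi : ℂ) ^ 2 / zp ρ u) +
      (1 - (u : ℂ) * I) ^ 2 * (deriv E (4 * (Real.pi : ℂ) ^ 2 / zp ρ u) * (-(4 * (Real.pi : ℂ) ^ 2) * ((ρ : ℂ) * I) / zp ρ u ^ 2)) with hD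
  have hgd : HasDerivAt (gg ρ) D u := gg_der hS hρ u
  have hre : HasDerivAt (fun v => (gg ρ v).re) D.re u := by
    have := (Complex.reCLM.hasFDerivAt (x := gg ρ u)).comp_hasDerivAt u hgd
    exact this
  have hder : HasDerivAt (T ρ) (2 * u * (-(4 * Real.pi ^ 2 + 12 * ρ) + 2 * ρ ^ 2 * (1 + u ^ 2)) - 96 * Real.pi ^ 2 * D.re) u := by
    rw [hTf]
    exact (N_der ρ u).sub (hre.const_mul _)
  refine ⟨_, hder, ?_⟩
  have hW : 29 / 25 ≤ 1 + u ^ 2 := by nlinarith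
  have hW1 : 1 + u ^ 2 ≤ 841 / 400 := by nlinarith
  have hs0 : 0 < ρ * (1 + u ^ 2) := by positivity
  set X : ℝ := 4 * Real.pi ^ 2 / (ρ * (1 + u ^ 2)) with hX
  have hs : ρ * (1 + u ^ 2) ≤ 29 / 10 * (841 / 400) := mul_le_mul hρ1 hW1 (by positivity) (by norm_num)
  have hX6 : 647 / 100 ≤ X := by
    rw [hX, le_div_iff₀ hs0]
    linarith
  have hE := (hB (4 * (Real.pi : ℂ) ^ 2 / zp ρ u)).1 (by rw [re_x hρ u]; linarith)
  rw [re_x hρ u] at hE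
  have hDb := gg_der_bound hρ u hE.1 hE.2
  rw [← hD, ← hX] at hDb
  have hDr : -D.re ≤ ‖D‖ := by
    have := (abs_re_le_norm D)
    rw [abs_le] at this
    linarith [this.1]
  have hk : 96 * Real.pi ^ 2 * (-D.re) ≤ 96 * (987 / 100) * (51 / 50 * Real.exp (-X) * (2 * Real.sqrt (1 + u ^ 2) + (1 + u ^ 2) * X)) := by
    have h1 : 0 ≤ 51 / 50 * Real.exp (-X) * (2 * Real.sqrt (1 + u ^ 2) + (1 + u ^ 2) * X) := (norm_nonneg D).trans hDb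
    calc 96 * Real.pi ^ 2 * (-D.re) ≤ 96 * Real.pi ^ 2 * (51 / 50 * Real.exp (-X) * (2 * Real.sqrt (1 + u ^ 2) + (1 + u ^ 2) * X)) :=
          mul_le_mul_of_nonneg_left (hDr.trans hDb) (by positivity)
      _ ≤ _ := mul_le_mul_of_nonneg_right (by linarith) h1
  have hX0 : 0 < X := by linarith
  rcases le_total u (4 / 5) with h8 | h8
  · -- W ≤ 1.64
    have hW2 : 1 + u ^ 2 ≤ 41 / 25 := by nlinarith
    have hs2 : ρ * (1 + u ^ 2) ≤ 29 / 10 * (41 / 25) := mul_le_mul hρ1 hW2 (by positivity) (by norm_num)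
    have hX8 : 83 / 10 ≤ X := by
      rw [hX, le_div_iff₀ hs0]
      linarith
    have hsq : Real.sqrt (1 + u ^ 2) ≤ 13 / 10 := by
      rw [Real.sqrt_le_left (by norm_num)]
      linarith
    have h1 := exp_lin_le (A := 2 * (13 / 10)) (B := 41 / 25) hX8 (by norm_num) (by norm_num) (by norm_num)
    have h2 := exp_83
    have h3 : Real.exp (-X) * (2 * Real.sqrt (1 + u ^ 2) + (1 + u ^ 2) * X) ≤ 1 / 3950 * (2 * (13 / 10) + 41 / 25 * (83 / 10)) := by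
      have k1 : 2 * Real.sqrt (1 + u ^ 2) + (1 + u ^ 2) * X ≤ 2 * (13 / 10) + 41 / 25 * X := by
        have := mul_le_mul_of_nonneg_right hW2 hX0.le
        linarith
      have k2 := mul_le_mul_of_nonneg_left k1 (Real.exp_pos (-X)).le
      have k3 := mul_le_mul_of_nonneg_right h2 (by norm_num : (0 : ℝ) ≤ 2 * (13 / 10) + 41 / 25 * (83 / 10))
      linarith
    have h4 : 96 * (987 / 100) * (51 / 50 * Real.exp (-X) * (2 * Real.sqrt (1 + u ^ 2) + (1 + u ^ 2) * X)) ≤ 4 := by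
      have e : 96 * (987 / 100) * (51 / 50 * Real.exp (-X) * (2 * Real.sqrt (1 + u ^ 2) + (1 + u ^ 2) * X)) =
        96 * (987 / 100) * (51 / 50) * (Real.exp (-X) * (2 * Real.sqrt (1 + u ^ 2) + (1 + u ^ 2) * X)) := by ring
      rw [e]
      have := mul_le_mul_of_nonneg_left h3 (by norm_num : (0 : ℝ) ≤ 96 * (987 / 100) * (51 / 50))
      refine this.trans ?_
      norm_num
    have h5 : 2 * u * (-(4 * Real.pi ^ 2 + 12 * ρ) + 2 * ρ ^ 2 * (1 + u ^ 2)) ≤ -30 := by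
      have k1 : ρ * (ρ * (1 + u ^ 2)) ≤ ρ * (29 / 10 * (41 / 25)) := mul_le_mul_of_nonneg_left hs2 hρ.le
      have e : 2 * ρ ^ 2 * (1 + u ^ 2) = 2 * (ρ * (ρ * (1 + u ^ 2))) := by ring
      have k2 : -(4 * Real.pi ^ 2 + 12 * ρ) + 2 * ρ ^ 2 * (1 + u ^ 2) ≤ -39 := by
        rw [e]
        linarith
      have k3 := mul_le_mul_of_nonneg_left k2 (by linarith : 0 ≤ 2 * u)
      linarith
    linarith
  · have hsq : Real.sqrt (1 + u ^ 2) ≤ 29 / 20 := by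
      rw [Real.sqrt_le_left (by norm_num)]
      linarith
    have h1 := exp_lin_le (A := 2 * (29 / 20)) (B := 841 / 400) hX6 (by norm_num) (by norm_num) (by norm_num)
    have h2 := exp_647
    have h3 : Real.exp (-X) * (2 * Real.sqrt (1 + u ^ 2) + (1 + u ^ 2) * X) ≤ 1 / 600 * (2 * (29 / 20) + 841 / 400 * (647 / 100)) := by
      have k1 : 2 * Real.sqrt (1 + u ^ 2) + (1 + u ^ 2) * X ≤ 2 * (29 / 20) + 841 / 400 * X := by
        have := mul_le_mul_of_nonneg_right hW1 hX0.le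
        linarith
      have k2 := mul_le_mul_of_nonneg_left k1 (Real.exp_pos (-X)).le
      have k3 := mul_le_mul_of_nonneg_right h2 (by norm_num : (0 : ℝ) ≤ 2 * (29 / 20) + 841 / 400 * (647 / 100))
      linarith
    have h4 : 96 * (987 / 100) * (51 / 50 * Real.exp (-X) * (2 * Real.sqrt (1 + u ^ 2) + (1 + u ^ 2) * X)) ≤ 28 := by
      have e : 96 * (987 / 100) * (51 / 50 * Real.exp (-X) * (2 * Real.sqrt (1 + u ^ 2) + (1 + u ^ 2) * X)) =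
        96 * (987 / 100) * (51 / 50) * (Real.exp (-X) * (2 * Real.sqrt (1 + u ^ 2) + (1 + u ^ 2) * X)) := by ring
      rw [e]
      have := mul_le_mul_of_nonneg_left h3 (by norm_num : (0 : ℝ) ≤ 96 * (987 / 100) * (51 / 50))
      refine this.trans ?_
      norm_num
    have h5 : 2 * u * (-(4 * Real.pi ^ 2 + 12 * ρ) + 2 * ρ ^ 2 * (1 + u ^ 2)) ≤ -60 := by
      have k1 : ρ * (ρ * (1 + u ^ 2)) ≤ ρ * (29 / 10 * (841 / 400)) := mul_le_mul_of_nonneg_left hs hρ.le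
      have e : 2 * ρ ^ 2 * (1 + u ^ 2) = 2 * (ρ * (ρ * (1 + u ^ 2))) := by ring
      have k2 : -(4 * Real.pi ^ 2 + 12 * ρ) + 2 * ρ ^ 2 * (1 + u ^ 2) ≤ -(385 / 10) := by
        rw [e]
        linarith
      have k3 := mul_le_mul_of_nonneg_left k2 (by linarith : 0 ≤ 2 * u)
      linarith
    linarith

end Pool.Agent.Q124.DA
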