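import Pool.Agent.Q124.DA.Tn

set_option autoImplicit false

/-! # DA: the signs of `T` (N1, N3) -/

namespace Pool.Agent.Q124.DA

open Complex Pool.Agent.Q276.DA

lemma pisq_lo : (9869 / 1000 : ℝ) < Real.pi ^ 2 := by
  have := Real.pi_gt_d4
  nlinarith

lemma pisq_hi : Real.pi ^ 2 < (987 / 100 : ℝ) := by
  have h1 := Real.pi_lt_d4
  have h2 := Real.pi_pos
  nlinarith

lemma exp_neg_le_inv {X X0 : ℝ} (h : X0 ≤ X) : Real.exp (-X) ≤ Real.exp (-X0) / (1 + (X - X0)) := by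
  have h1 := Real.add_one_le_exp (X - X0)
  have h2 : 0 < 1 + (X - X0) := by linarith
  rw [le_div_iff₀ h2]
  have h3 : Real.exp (-X) * Real.exp (X - X0) = Real.exp (-X0) := by
    rw [← Real.exp_add]
    ring_nf
  rw [← h3]
  exact mul_le_mul_of_nonneg_left (by linarith) (Real.exp_pos _).le

/-- `e^{-X} (A + B X)` is decreasing -/
lemma exp_lin_le {X X0 A B : ℝ} (h : X0 ≤ X) (h1 : 1 ≤ X0) (hA : 0 ≤ A) (hB : 0 ≤ B) :
    Real.exp (-X) * (A + B * X) ≤ Real.exp (-X0) * (A + B * X0) := by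
  have h2 := exp_neg_le_inv h
  have h3 : 0 < 1 + (X - X0) := by linarith
  have h4 : 0 ≤ A + B * X := by
    have : 0 ≤ B * X := mul_nonneg hB (by linarith)
    linarith
  refine (mul_le_mul_of_nonneg_right h2 h4).trans ?_
  rw [div_mul_eq_mul_div, div_le_iff₀ h3, mul_assoc]
  refine mul_le_mul_of_nonneg_left ?_ (Real.exp_pos _).le
  nlinarith [mul_nonneg (sub_nonneg.2 h) (mul_nonneg hB (sub_nonneg.2 h1)), mul_nonneg (sub_nonneg.2 h) hA]

lemma exp_neg_nat (n : ℕ) : Real.exp (-(n : ℝ)) ≤ 1 / (2.718 : ℝ) ^ n := by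
  rw [Real.exp_neg, ← one_div]
  apply one_div_le_one_div_of_le (by positivity)
  have h : Real.exp (n : ℝ) = Real.exp 1 ^ n := by
    rw [← Real.exp_nat_mul, mul_one]
  rw [h]
  have := Real.exp_one_gt_d9
  exact pow_le_pow_left₀ (by norm_num) (by linarith) n

lemma N_eq (ρ u : ℝ) : N ρ u = 4 * Real.pi ^ 2 * (2 - (1 + u ^ 2)) - 12 * (ρ * (1 + u ^ 2)) + (ρ * (1 + u ^ 2)) ^ 2 := by
  unfold N
  ring

theorem t_N1 (h : S_TN) (hB : S_BND) : S_N1 := by
  intro ρ u hρ hρ1 hu hu1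
  have hW : 1 + u ^ 2 ≤ 29 / 25 := by nlinarith
  have hW1 : 1 ≤ 1 + u ^ 2 := by nlinarith [sq_nonneg u]
  have hp1 := pisq_lo
  have hp2 := pisq_hi
  have hs : ρ * (1 + u ^ 2) ≤ 29 / 10 * (29 / 25) := mul_le_mul hρ1 hW (by linarith) (by norm_num)
  have hs0 : 0 < ρ * (1 + u ^ 2) := by positivity
  have hX : 11 ≤ 4 * Real.pi ^ 2 / (ρ * (1 + u ^ 2)) := by
    rw [le_div_iff₀ hs0]
    linarith
  have hre := re_x hρ u
  have hE := (hB (4 * (Real.pi : ℂ) ^ 2 / zp ρ u)).1 (by rw [hre]; linarith)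
  rw [hre] at hE
  have hexp : Real.exp (-(4 * Real.pi ^ 2 / (ρ * (1 + u ^ 2)))) ≤ 1 / (2.718 : ℝ) ^ 11 := by
    refine (Real.exp_le_exp.2 (neg_le_neg hX)).trans ?_
    have := exp_neg_nat 11
    exact_mod_cast this
  have hE2 : ‖E (4 * (Real.pi : ℂ) ^ 2 / zp ρ u)‖ ≤ 51 / 50 * (1 / (2.718 : ℝ) ^ 11) :=
    hE.1.trans (mul_le_mul_of_nonneg_left hexp (by norm_num))
  have hT := T_sub_N h hρ u
  have hb : 96 * Real.pi ^ 2 * ((1 + u ^ 2) * ‖E (4 * (Real.pi : ℂ) ^ 2 / zp ρ u)‖) ≤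
      96 * (987 / 100) * ((29 / 25) * (51 / 50 * (1 / (2.718 : ℝ) ^ 11))) := by
    apply mul_le_mul _ _ (by positivity) (by norm_num)
    · linarith
    · exact mul_le_mul hW hE2 (norm_nonneg _) (by norm_num)
  have hnum : 96 * (987 / 100) * ((29 / 25) * (51 / 50 * (1 / (2.718 : ℝ) ^ 11))) < 1 := by norm_num
  have hN : 4 ≤ N ρ u := by
    rw [N_eq]
    generalize ρ * (1 + u ^ 2) = s at *
    generalize 1 + u ^ 2 = W at *
    have h1 : 4 * Real.pi ^ 2 * (2 - W) ≥ 4 * (9869 / 1000) * (21 / 25) := by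
      apply mul_le_mul _ _ (by norm_num) (by positivity)
      · linarith
      · linarith
    nlinarith
  rw [abs_le] at hT
  linarith [hT.1]

theorem t_N3 (h : S_TN) (hB : S_BND) : S_N3 := by
  intro ρ u hρ hρ1 hu hu1 hρu
  have hp1 := pisq_lo
  have hp2 := pisq_hi
  have hW : 841 / 400 ≤ 1 + u ^ 2 := by nlinarith
  have hW1 : 1 + u ^ 2 ≤ 10 := by nlinarith
  have hs0 : 0 < ρ * (1 + u ^ 2) := by positivity
  have hρs : ρ * (ρ * (1 + u ^ 2)) ≤ ρ ^ 2 + Real.pi ^ 2 := by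
    have h1 : (ρ * u) ^ 2 ≤ Real.pi ^ 2 := pow_le_pow_left₀ (by positivity) hρu 2
    nlinarith
  have hs : ρ * (1 + u ^ 2) ≤ 21 / 2 := by
    rcases le_total ρ (21 / 20) with h1 | h1
    · calc ρ * (1 + u ^ 2) ≤ 21 / 20 * 10 := mul_le_mul h1 hW1 (by positivity) (by norm_num)
        _ = _ := by norm_num
    · by_contra h2
      push Not at h2
      have h3 : ρ * (21 / 2) < ρ * (ρ * (1 + u ^ 2)) := mul_lt_mul_of_pos_left h2 hρ
      nlinarith
  have hre := re_x hρ u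
  have hT := T_sub_N h hρ u
  rw [abs_le] at hT
  have hN := N_eq ρ u
  have hX0 : 15 / 4 ≤ 4 * Real.pi ^ 2 / (ρ * (1 + u ^ 2)) := by
    rw [le_div_iff₀ hs0]
    linarith
  have hE := (hB (4 * (Real.pi : ℂ) ^ 2 / zp ρ u)).2.1 (by rw [hre]; exact hX0)
  rw [hre] at hE
  set X : ℝ := 4 * Real.pi ^ 2 / (ρ * (1 + u ^ 2)) with hXdef
  set n : ℝ := ‖E (4 * (Real.pi : ℂ) ^ 2 / zp ρ u)‖ with hn
  have hXs : X * (ρ * (1 + u ^ 2)) = 4 * Real.pi ^ 2 := div_mul_cancel₀ _ hs0.ne'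
  set s : ℝ := ρ * (1 + u ^ 2) with hsdef
  set W : ℝ := 1 + u ^ 2 with hWdef
  have hW0 : 0 < W := by linarith
  have hn0 : 0 ≤ n := norm_nonneg _
  have hb : 96 * Real.pi ^ 2 * (W * n) ≤ 1024 * W * Real.exp (-X) := by
    have h1 : 96 * Real.pi ^ 2 * (W * n) ≤ 96 * (987 / 100) * (W * (27 / 25 * Real.exp (-X))) := by
      apply mul_le_mul _ _ (by positivity) (by norm_num)
      · linarith
      · exact mul_le_mul_of_nonneg_left hE hW0.le
    have h2 := mul_pos hW0 (Real.exp_pos (-X))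
    nlinarith
  rcases le_total s 8 with h8 | h8
  · have hX1 : 49 / 10 ≤ X := by
      rw [hXdef, le_div_iff₀ hs0]
      linarith
    have h1 := exp_lin_le (A := 0) (B := 1) hX1 (by norm_num) le_rfl zero_le_one
    have h2 : Real.exp (-(49 / 10 : ℝ)) ≤ 1 / (133 : ℝ) := by
      rw [Real.exp_neg, ← one_div]
      apply one_div_le_one_div_of_le (by norm_num)
      have e1 : Real.exp (49 / 10 : ℝ) = Real.exp 1 ^ 5 * Real.exp (-(1 / 10) : ℝ) := by
        rw [← Real.exp_nat_mul, ← Real.exp_add]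
        norm_num
      have e2 : (2.718 : ℝ) ^ 5 ≤ Real.exp 1 ^ 5 := by
        have := Real.exp_one_gt_d9
        exact pow_le_pow_left₀ (by norm_num) (by linarith) 5
      have e3 : (9 / 10 : ℝ) ≤ Real.exp (-(1 / 10) : ℝ) := by
        have := Real.add_one_le_exp (-(1 / 10) : ℝ)
        linarith
      rw [e1]
      have e4 : (2.718 : ℝ) ^ 5 * (9 / 10) ≤ Real.exp 1 ^ 5 * Real.exp (-(1 / 10) : ℝ) :=
        mul_le_mul e2 e3 (by norm_num) (by positivity)
      refine le_trans ?_ e4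
      norm_num
    have h3 : Real.exp (-X) * X ≤ 1 / 133 * (49 / 10) := by
      have h4 : Real.exp (-X) * (0 + 1 * X) ≤ Real.exp (-(49 / 10)) * (0 + 1 * (49 / 10)) := h1
      have h5 := mul_le_mul_of_nonneg_right h2 (by norm_num : (0 : ℝ) ≤ 49 / 10)
      linarith
    -- 1024 e^{-X} ≤ s
    have h4 : 1024 * Real.exp (-X) ≤ s := by
      have hXpos : 0 < X := by linarith
      by_contra hc
      push Not at hc
      have h5 : X * s < X * (1024 * Real.exp (-X)) := mul_lt_mul_of_pos_left hc hXpos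
      have h6 : X * (1024 * Real.exp (-X)) = 1024 * (Real.exp (-X) * X) := by ring
      linarith
    have h5 : 1024 * W * Real.exp (-X) ≤ s * W := by
      have := mul_le_mul_of_nonneg_right h4 hW0.le
      linarith
    have h6 : T ρ u ≤ N ρ u + s * W := by linarith [hT.2]
    have h7 : N ρ u + s * W < 0 := by
      rw [hN]
      have k1 : 0 ≤ (4 * Real.pi ^ 2 - s) * (W - 841 / 400) := mul_nonneg (by linarith) (by linarith)
      have k2 : 0 ≤ s * (8 - s) := mul_nonneg hs0.le (by linarith)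
      nlinarith
    linarith
  · have hρ2 : ρ ≤ 153 / 100 := by
      by_contra h2
      push Not at h2
      have h3 : ρ * 8 ≤ ρ * s := mul_le_mul_of_nonneg_left h8 hρ.le
      nlinarith
    have hW5 : 522 / 100 ≤ W := by
      by_contra h2
      push Not at h2
      have h3 : s < 153 / 100 * (522 / 100) := by
        calc s = ρ * W := rfl
          _ ≤ 153 / 100 * W := mul_le_mul_of_nonneg_right hρ2 hW0.le
          _ < _ := mul_lt_mul_of_pos_left h2 (by norm_num)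
      linarith
    have h2 : Real.exp (-X) ≤ 1 / (40 : ℝ) := by
      refine (Real.exp_le_exp.2 (neg_le_neg hX0)).trans ?_
      rw [Real.exp_neg, ← one_div]
      apply one_div_le_one_div_of_le (by norm_num)
      have e1 : Real.exp (15 / 4 : ℝ) = Real.exp 1 ^ 4 * Real.exp (-(1 / 4) : ℝ) := by
        rw [← Real.exp_nat_mul, ← Real.exp_add]
        norm_num
      have e2 : (2.718 : ℝ) ^ 4 ≤ Real.exp 1 ^ 4 := by
        have := Real.exp_one_gt_d9
        exact pow_le_pow_left₀ (by norm_num) (by linarith) 4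
      have e3 : (3 / 4 : ℝ) ≤ Real.exp (-(1 / 4) : ℝ) := by
        have := Real.add_one_le_exp (-(1 / 4) : ℝ)
        linarith
      rw [e1]
      have e4 : (2.718 : ℝ) ^ 4 * (3 / 4) ≤ Real.exp 1 ^ 4 * Real.exp (-(1 / 4) : ℝ) :=
        mul_le_mul e2 e3 (by norm_num) (by positivity)
      refine le_trans ?_ e4
      norm_num
    have h3 : 1024 * W * Real.exp (-X) ≤ 256 / 10 * W := by nlinarith
    have h6 : T ρ u ≤ N ρ u + 256 / 10 * W := by linarith [hT.2]
    have h7 : N ρ u + 256 / 10 * W < 0 := by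
      rw [hN]
      have k1 : 0 ≤ (4 * Real.pi ^ 2 - 256 / 10) * (W - 522 / 100) := mul_nonneg (by linarith) (by linarith)
      have k2 : 0 ≤ (s - 8) * (21 / 2 - s) := mul_nonneg (by linarith) (by linarith)
      nlinarith
    linarith

end Pool.Agent.Q124.DA
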