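import Pool.Agent.Q276.DA.Stm

set_option autoImplicit false

/-! # DA: the root of `T` -/

namespace Pool.Agent.Q124.DA

open Complex Pool.Agent.Q276.DA

theorem t_ROOT (h1 : S_N1) (h2 : S_N2) (h3 : S_N3) : S_ROOT := by
  intro ρ hρ hρ1
  have hpi := Real.pi_gt_d2
  have hpos : 0 < T ρ (2 / 5) := h1 ρ (2 / 5) hρ hρ1 (by norm_num) le_rfl
  have hneg : T ρ (21 / 20) < 0 := h3 ρ (21 / 20) hρ hρ1 le_rfl (by norm_num) (by linarith)
  have hder : ∀ u : ℝ, 2 / 5 ≤ u → u ≤ 21 / 20 → ∃ T' : ℝ, HasDerivAt (T ρ) T' u ∧ T' ≤ -25 := fun u a b => h2 ρ u hρ hρ1 a b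
  have hcont : ContinuousOn (T ρ) (Set.Icc (2 / 5) (21 / 20)) := by
    intro u hu
    obtain ⟨T', hT', -⟩ := hder u hu.1 hu.2
    exact hT'.continuousAt.continuousWithinAt
  have hanti : StrictAntiOn (T ρ) (Set.Icc (2 / 5) (21 / 20)) := by
    apply strictAntiOn_of_deriv_neg (convex_Icc _ _) hcont
    intro u hu
    rw [interior_Icc] at hu
    obtain ⟨T', hT', hT2⟩ := hder u hu.1.le hu.2.le
    rw [hT'.deriv]
    linarith
  obtain ⟨u0, hu0, hT0⟩ := intermediate_value_Icc' (by norm_num : (2 / 5 : ℝ) ≤ 21 / 20) hcont ⟨hneg.le, hpos.le⟩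
  have hne1 : 2 / 5 < u0 := by
    rcases eq_or_lt_of_le hu0.1 with h | h
    · exfalso
      rw [← h] at hT0
      linarith
    · exact h
  have hne2 : u0 < 21 / 20 := by
    rcases eq_or_lt_of_le hu0.2 with h | h
    · exfalso
      rw [h] at hT0
      linarith
    · exact h
  refine ⟨u0, hne1, hne2, hT0, ?_, ?_⟩
  · intro u hu hu1
    rcases le_total u (2 / 5) with h | h
    · exact h1 ρ u hρ hρ1 hu h
    · have := hanti ⟨h, hu1.le.trans hu0.2⟩ hu0 hu1
      rwa [hT0] at this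
  · intro u hu hu1 hu2
    rcases le_total u (21 / 20) with h | h
    · have := hanti hu0 ⟨hu0.1.trans hu.le, h⟩ hu
      rwa [hT0] at this
    · exact h3 ρ u hρ hρ1 h hu1 hu2

end Pool.Agent.Q124.DA
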