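import Pool.Agent.Q276.DA.Stm

set_option autoImplicit false

/-! # DA-TN: the main term of `T` -/

namespace Pool.Agent.Q124.DA

open Complex Pool.Agent.Q276.DA

lemma w_ne (u : ℝ) : (1 + (u : ℂ) * I) ≠ 0 := by
  intro h
  have := congrArg re h
  simp at this

theorem t_TN (h : S_MODE) : S_TN := by
  intro ρ u hρ
  have hz : 0 < ((ρ : ℂ) * (1 + (u : ℂ) * I)).re := by simpa using hρ
  have hρc : (ρ : ℂ) ≠ 0 := by exact_mod_cast hρ.ne'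
  have hw := w_ne u
  unfold T e
  rw [h _ hz]
  set X : ℂ := E (4 * Real.pi ^ 2 / ((ρ : ℂ) * (1 + (u : ℂ) * I))) with hX
  have hX2 : E (4 * Real.pi ^ 2 / zp ρ u) = X := rfl
  rw [hX2]
  have hW : ((1 + u ^ 2 : ℝ) : ℂ) = (1 + (u : ℂ) * I) * (1 - (u : ℂ) * I) := by
    push_cast
    ring_nf
    rw [I_sq]
    ring
  have key : ((24 * (1 + u ^ 2) ^ 2 : ℝ) : ℂ) * ((ρ : ℂ) ^ 2 * ((Real.pi : ℂ) ^ 2 / (6 * ((ρ : ℂ) * (1 + (u : ℂ) * I)) ^ 2) -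
      1 / (2 * ((ρ : ℂ) * (1 + (u : ℂ) * I))) + 1 / 24 - 4 * (Real.pi : ℂ) ^ 2 / ((ρ : ℂ) * (1 + (u : ℂ) * I)) ^ 2 * X)) =
      ((4 * Real.pi ^ 2 : ℝ) : ℂ) * (1 - (u : ℂ) * I) ^ 2 - ((12 * ρ * (1 + u ^ 2) : ℝ) : ℂ) * (1 - (u : ℂ) * I) +
        ((ρ ^ 2 * (1 + u ^ 2) ^ 2 : ℝ) : ℂ) - ((96 * Real.pi ^ 2 : ℝ) : ℂ) * ((1 - (u : ℂ) * I) ^ 2 * X) := by
    have e1 : ((24 * (1 + u ^ 2) ^ 2 : ℝ) : ℂ) = 24 * ((1 + (u : ℂ) * I) * (1 - (u : ℂ) * I)) ^ 2 := by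
      rw [← hW]; push_cast; ring
    have e2 : ((12 * ρ * (1 + u ^ 2) : ℝ) : ℂ) = 12 * (ρ : ℂ) * ((1 + (u : ℂ) * I) * (1 - (u : ℂ) * I)) := by
      rw [← hW]; push_cast; ring
    have e3 : ((ρ ^ 2 * (1 + u ^ 2) ^ 2 : ℝ) : ℂ) = (ρ : ℂ) ^ 2 * ((1 + (u : ℂ) * I) * (1 - (u : ℂ) * I)) ^ 2 := by
      rw [← hW]; push_cast; ring
    rw [e1, e2, e3]
    push_cast
    generalize (1 - (u : ℂ) * I) = w'
    generalize (1 + (u : ℂ) * I) = w at *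
    field_simp
    ring
  have key2 := congrArg re key
  rw [re_ofReal_mul, sub_re, add_re, sub_re, re_ofReal_mul, re_ofReal_mul, re_ofReal_mul, ofReal_re] at key2
  rw [key2]
  have r1 : ((1 - (u : ℂ) * I) ^ 2).re = 1 - u ^ 2 := by
    rw [sq]; simp; ring
  have r2 : (1 - (u : ℂ) * I).re = 1 := by simp
  rw [r1, r2]
  unfold N
  ring

lemma norm_w' (u : ℝ) : ‖(1 - (u : ℂ) * I)‖ ^ 2 = 1 + u ^ 2 := by
  rw [← Complex.normSq_eq_norm_sq, Complex.normSq_apply]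
  simp
  ring

lemma norm_w (u : ℝ) : ‖(1 + (u : ℂ) * I)‖ ^ 2 = 1 + u ^ 2 := by
  rw [← Complex.normSq_eq_norm_sq, Complex.normSq_apply]
  simp
  ring

lemma re_x {ρ : ℝ} (hρ : 0 < ρ) (u : ℝ) : (4 * (Real.pi : ℂ) ^ 2 / zp ρ u).re = 4 * Real.pi ^ 2 / (ρ * (1 + u ^ 2)) := by
  unfold zp
  have e : (4 * (Real.pi : ℂ) ^ 2 / ((ρ : ℂ) * (1 + (u : ℂ) * I))) = ((4 * Real.pi ^ 2 / (ρ * (1 + u ^ 2)) : ℝ) : ℂ) * (1 - (u : ℂ) * I) := by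
    have hW : (1 + (u : ℂ) ^ 2) = (1 + (u : ℂ) * I) * (1 - (u : ℂ) * I) := by
      ring_nf
      rw [I_sq]
      ring
    have hρc : (ρ : ℂ) ≠ 0 := by exact_mod_cast hρ.ne'
    have hw := w_ne u
    have hw2 : (1 - (u : ℂ) * I) ≠ 0 := by
      intro h
      have := congrArg re h
      simp at this
    push_cast
    rw [hW]
    generalize (1 - (u : ℂ) * I) = w' at *
    generalize (1 + (u : ℂ) * I) = w at *
    field_simp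
  rw [e, re_ofReal_mul]
  simp

lemma T_sub_N (h : S_TN) {ρ : ℝ} (hρ : 0 < ρ) (u : ℝ) :
    |T ρ u - N ρ u| ≤ 96 * Real.pi ^ 2 * ((1 + u ^ 2) * ‖E (4 * Real.pi ^ 2 / zp ρ u)‖) := by
  rw [h ρ u hρ]
  have e : N ρ u - 96 * Real.pi ^ 2 * ((1 - (u : ℂ) * I) ^ 2 * E (4 * Real.pi ^ 2 / zp ρ u)).re - N ρ u =
    -(96 * Real.pi ^ 2 * ((1 - (u : ℂ) * I) ^ 2 * E (4 * Real.pi ^ 2 / zp ρ u)).re) := by ring
  rw [e, abs_neg, abs_mul, abs_of_nonneg (by positivity : 0 ≤ 96 * Real.pi ^ 2)]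
  refine mul_le_mul_of_nonneg_left ?_ (by positivity)
  refine (abs_re_le_norm _).trans ?_
  rw [norm_mul, norm_pow, norm_w']

end Pool.Agent.Q124.DA
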